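import Pool.Agent.H56.Lip4

set_option autoImplicit false

namespace Pool.Agent.Results.MP_349e68_an.BackOrbit
open Pool.Agent.H56.Lip

theorem result : ∃ (V : Type) (τ : RTree V) (φ : V → V) (l : ℂ) (v : V),
    1 ≤ ‖l‖ ∧ BoundedComp τ φ ∧ HypercyclicComp τ φ l ∧ (backSet φ v).Infinite :=
  ⟨W, tr, ph, 1, oW, by simp, final⟩

end Pool.Agent.Results.MP_349e68_an.BackOrbit
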